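import Mathlib

/-!
Presentations with a binary icosahedral tail are Q**-equivalent to the ones without it
(MP_7840f5_gt, Q1: the statement is true).
-/

set_option autoImplicit false

namespace Pool.Agent.Results.MP_7840f5_gt.BinaryIcosahedralTail

/-- A finite presentation with generators `a_0, ..., a_{g-1}` and relators
`rel 0, ..., rel (h-1)`, which are elements of the free group on the generators. -/
structure Pres where
  g : ℕ
  h : ℕ
  rel : Fin h → FreeGroup (Fin g)

/-- Adjoin a new (last) generator `a` together with the new (last) relator `a`. -/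
def Pres.prolong (P : Pres) : Pres where
  g := P.g + 1
  h := P.h + 1
  rel := Fin.snoc (α := fun _ => FreeGroup (Fin (P.g + 1)))
    (fun j => FreeGroup.map Fin.castSucc (P.rel j)) (FreeGroup.of (Fin.last P.g))

/-- Substitute the word `w` for the generator `a_i` in every relator. -/
def Pres.subst (P : Pres) (i : Fin P.g) (w : FreeGroup (Fin P.g)) : Pres where
  g := P.g
  h := P.h
  rel := fun j => FreeGroup.lift (Function.update FreeGroup.of i w) (P.rel j)

/-- Replace the relator `rel j` by the element `r`. -/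
def Pres.replace (P : Pres) (j : Fin P.h) (r : FreeGroup (Fin P.g)) : Pres where
  g := P.g
  h := P.h
  rel := Function.update P.rel j r

/-- The elementary moves: Q-moves, Nielsen moves, prolongation and its reverse. -/
inductive Move : Pres → Pres → Prop
  | conj (P : Pres) (j : Fin P.h) (w : FreeGroup (Fin P.g)) :
      Move P (P.replace j (w * P.rel j * w⁻¹))
  | inv (P : Pres) (j : Fin P.h) : Move P (P.replace j (P.rel j)⁻¹)
  | mulRight (P : Pres) (j k : Fin P.h) (hjk : k ≠ j) :
      Move P (P.replace j (P.rel j * P.rel k))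
  | mulLeft (P : Pres) (j k : Fin P.h) (hjk : k ≠ j) :
      Move P (P.replace j (P.rel k * P.rel j))
  | nielsenInv (P : Pres) (i : Fin P.g) : Move P (P.subst i (FreeGroup.of i)⁻¹)
  | nielsenRight (P : Pres) (i k : Fin P.g) (hik : k ≠ i) :
      Move P (P.subst i (FreeGroup.of i * FreeGroup.of k))
  | nielsenLeft (P : Pres) (i k : Fin P.g) (hik : k ≠ i) :
      Move P (P.subst i (FreeGroup.of k * FreeGroup.of i))
  | prolong (P : Pres) : Move P P.prolong
  | unprolong (P : Pres) : Move P.prolong P

/-- `P` and `Q` are Q**-equivalent: a finite sequence of moves carries `P` to `Q`. -/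
def QEquiv (P Q : Pres) : Prop := Relation.ReflTransGen Move P Q

/-- `⟨a_1, ..., a_g, b_1, b_2 | R_1, ..., R_h, S b_1⁻¹, b_1³ b_2⁻⁵, b_1³ (b_1 b_2)⁻²⟩`. -/
def presP {g h : ℕ} (R : Fin h → FreeGroup (Fin g)) (S : FreeGroup (Fin g)) : Pres where
  g := g + 2
  h := h + 3
  rel :=
    let b₁ : FreeGroup (Fin (g + 2)) := FreeGroup.of (Fin.natAdd g 0)
    let b₂ : FreeGroup (Fin (g + 2)) := FreeGroup.of (Fin.natAdd g 1)
    Fin.append (fun j => FreeGroup.map (Fin.castAdd 2) (R j))
      ![FreeGroup.map (Fin.castAdd 2) S * b₁⁻¹,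
        b₁ ^ 3 * b₂ ^ (-5 : ℤ),
        b₁ ^ 3 * (b₁ * b₂) ^ (-2 : ℤ)]

/-- `⟨a_1, ..., a_g | R_1, ..., R_h, S⟩`. -/
def presQ {g h : ℕ} (R : Fin h → FreeGroup (Fin g)) (S : FreeGroup (Fin g)) : Pres where
  g := g
  h := h + 1
  rel := Fin.snoc (α := fun _ => FreeGroup (Fin g)) R S

/-! ### Group theory -/

lemma key {H : Type*} [Group H] (s b : H) (m : ℕ) (hm : s ^ m = 1) (h3 : Nat.Coprime m 3)
    (hv : s ^ 3 = (s * b) ^ 2) : s ^ 3 = b ^ 6 := by
  have hc : Commute (s ^ 3) (s * b) := by
    rw [hv]; exact (Commute.refl _).pow_left 2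
  have hb : ∃ y : ℤ, s = (s ^ 3) ^ y := by
    have hg := Nat.gcd_eq_gcd_ab m 3
    rw [h3] at hg
    refine ⟨Nat.gcdB m 3, ?_⟩
    have : s ^ ((1 : ℕ) : ℤ) = s ^ ((m : ℤ) * Nat.gcdA m 3 + ((3 : ℕ) : ℤ) * Nat.gcdB m 3) := by
      rw [← hg]
    rw [zpow_add, zpow_mul, zpow_mul, zpow_natCast, zpow_natCast, zpow_natCast, hm, one_zpow,
      one_mul, pow_one] at this
    exact this
  obtain ⟨y, hy⟩ := hb
  have hc2 : Commute s (s * b) := by
    have := hc.zpow_left y
    rwa [← hy] at this
  have hc3 : s * b = b * s := by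
    have h1 : s * (s * b) = s * b * s := hc2.eq
    have h2 : s * (s * b) = s * (b * s) := by rw [h1, mul_assoc]
    exact mul_left_cancel h2
  have hsb : (s * b) ^ 2 = s ^ 2 * b ^ 2 := by
    have : Commute s b := hc3
    exact this.mul_pow 2
  have h5 : s = b ^ 2 := by
    have h6 : s ^ 2 * s = s ^ 2 * b ^ 2 := by
      rw [← hsb, ← hv, pow_succ s 2]
    exact mul_left_cancel h6
  rw [h5, ← pow_mul]

/-! ### Q-moves -/

section QM

variable {g h : ℕ}

/-- Reachability with fixed numbers of generators and relators. -/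
def Reach (A B : Fin h → FreeGroup (Fin g)) : Prop := QEquiv ⟨g, h, A⟩ ⟨g, h, B⟩

lemma Reach.trans {A B C : Fin h → FreeGroup (Fin g)} (h1 : Reach A B) (h2 : Reach B C) :
    Reach A C := Relation.ReflTransGen.trans h1 h2

lemma reach_conj (A : Fin h → FreeGroup (Fin g)) (j : Fin h) (w : FreeGroup (Fin g)) :
    Reach A (Function.update A j (w * A j * w⁻¹)) :=
  Relation.ReflTransGen.single (Move.conj ⟨g, h, A⟩ j w)

lemma reach_inv (A : Fin h → FreeGroup (Fin g)) (j : Fin h) :
    Reach A (Function.update A j (A j)⁻¹) :=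
  Relation.ReflTransGen.single (Move.inv ⟨g, h, A⟩ j)

lemma reach_mul (A : Fin h → FreeGroup (Fin g)) (j k : Fin h) (hjk : k ≠ j) :
    Reach A (Function.update A j (A j * A k)) :=
  Relation.ReflTransGen.single (Move.mulRight ⟨g, h, A⟩ j k hjk)

lemma reach_mul_conj (A : Fin h → FreeGroup (Fin g)) (j k : Fin h) (hjk : k ≠ j)
    (w : FreeGroup (Fin g)) :
    Reach A (Function.update A j (A j * (w * A k * w⁻¹))) := by
  have h1 := reach_conj A k w
  have h2 := reach_mul (Function.update A k (w * A k * w⁻¹)) j k hjk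
  have h3 := reach_conj (Function.update (Function.update A k (w * A k * w⁻¹)) j
    (Function.update A k (w * A k * w⁻¹) j * Function.update A k (w * A k * w⁻¹) k)) k w⁻¹
  have h4 := (h1.trans h2).trans h3
  convert h4 using 1
  funext i
  by_cases hi : i = j
  · subst hi
    simp [Function.update_of_ne hjk, Function.update_of_ne hjk.symm, mul_assoc]
  · by_cases hk : i = k
    · subst hk
      simp [Function.update_of_ne hjk, mul_assoc]
    · simp [Function.update_of_ne hi, Function.update_of_ne hk]

lemma reach_mul_conj_inv (A : Fin h → FreeGroup (Fin g)) (j k : Fin h) (hjk : k ≠ j)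
    (w : FreeGroup (Fin g)) :
    Reach A (Function.update A j (A j * (w * (A k)⁻¹ * w⁻¹))) := by
  have h1 := reach_inv A k
  have h2 := reach_mul_conj (Function.update A k (A k)⁻¹) j k hjk w
  have h3 := reach_inv (Function.update (Function.update A k (A k)⁻¹) j
    (Function.update A k (A k)⁻¹ j * (w * Function.update A k (A k)⁻¹ k * w⁻¹))) k
  have h4 := (h1.trans h2).trans h3
  convert h4 using 1
  funext i
  by_cases hi : i = j
  · subst hi
    simp [Function.update_of_ne hjk, Function.update_of_ne hjk.symm]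
  · by_cases hk : i = k
    · subst hk
      simp [Function.update_of_ne hjk]
    · simp [Function.update_of_ne hi, Function.update_of_ne hk]

/-- Multiplying the relator `j` by an element of the normal closure of the other relators. -/
lemma reach_normal (A : Fin h → FreeGroup (Fin g)) (j : Fin h) (w : FreeGroup (Fin g))
    (hw : w ∈ Subgroup.normalClosure (A '' {k | k ≠ j})) :
    ∀ r : FreeGroup (Fin g), Reach (Function.update A j r) (Function.update A j (r * w)) ∧
      Reach (Function.update A j r) (Function.update A j (r * w⁻¹)) := by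
  unfold Subgroup.normalClosure at hw
  induction hw using Subgroup.closure_induction with
  | mem x hx =>
    intro r
    rw [Group.mem_conjugatesOfSet_iff] at hx
    obtain ⟨a, ⟨k, hk, rfl⟩, hax⟩ := hx
    rw [isConj_iff] at hax
    obtain ⟨c, rfl⟩ := hax
    have hk' : k ≠ j := hk
    constructor
    · have := reach_mul_conj (Function.update A j r) j k hk' c
      simpa [Function.update_of_ne hk'] using this
    · have := reach_mul_conj_inv (Function.update A j r) j k hk' c
      simpa [Function.update_of_ne hk', mul_assoc] using this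
  | one =>
    intro r
    simp only [mul_one, inv_one]
    exact ⟨Relation.ReflTransGen.refl, Relation.ReflTransGen.refl⟩
  | mul x y _ _ hx hy =>
    intro r
    constructor
    · have := ((hx r).1).trans ((hy (r * x)).1)
      rwa [mul_assoc] at this
    · have := ((hy r).2).trans ((hx (r * y⁻¹)).2)
      rw [mul_assoc, ← mul_inv_rev] at this
      exact this
  | inv x _ hx =>
    intro r
    refine ⟨(hx r).2, ?_⟩
    rw [inv_inv]
    exact (hx r).1

lemma reach_of_normal {A B : Fin h → FreeGroup (Fin g)} (j : Fin h)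
    (hAB : ∀ k, k ≠ j → A k = B k)
    (hw : (A j)⁻¹ * B j ∈ Subgroup.normalClosure (A '' {k | k ≠ j})) : Reach A B := by
  have h1 := (reach_normal A j _ hw (A j)).1
  rw [Function.update_eq_self] at h1
  convert h1 using 1
  funext i
  by_cases hi : i = j
  · subst hi
    simp
  · rw [Function.update_of_ne hi, hAB i hi]

end QM

/-! ### The presentations -/

section Tail

variable {g h : ℕ}

/-- Relators `R_1, ..., R_h, x, y, z` on the generators `a_1, ..., a_g, b_1, b_2`. -/
def T (R : Fin h → FreeGroup (Fin g)) (x y z : FreeGroup (Fin (g + 2))) :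
    Fin (h + 3) → FreeGroup (Fin (g + 2)) :=
  Fin.append (fun j => FreeGroup.map (Fin.castAdd 2) (R j)) ![x, y, z]

variable (R : Fin h → FreeGroup (Fin g)) (x y z x' y' z' : FreeGroup (Fin (g + 2)))

lemma T_R (j : Fin h) : T R x y z (Fin.castAdd 3 j) = FreeGroup.map (Fin.castAdd 2) (R j) := by
  simp [T]

lemma T_0 : T R x y z (Fin.natAdd h 0) = x := by simp [T]
lemma T_1 : T R x y z (Fin.natAdd h 1) = y := by simp [T]
lemma T_2 : T R x y z (Fin.natAdd h 2) = z := by simp [T]

lemma castAdd_ne (j : Fin h) (i : Fin 3) : Fin.castAdd 3 j ≠ Fin.natAdd h i := by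
  intro hj
  have := congrArg Fin.val hj
  simp at this
  omega

lemma natAdd_ne {i i' : Fin 3} (hi : i ≠ i') : Fin.natAdd h i ≠ Fin.natAdd h i' := by
  intro hj
  exact hi (by simpa using hj)

/-- Change the relator number `h + i`. -/
lemma reach_T {x y z x' y' z' : FreeGroup (Fin (g + 2))} (i : Fin 3)
    (h0 : i ≠ 0 → x = x') (h1 : i ≠ 1 → y = y') (h2 : i ≠ 2 → z = z')
    (N : Subgroup (FreeGroup (Fin (g + 2))))
    (hN : N = Subgroup.normalClosure (T R x y z '' {k | k ≠ Fin.natAdd h i}))
    (hw : ((![x, y, z] : Fin 3 → FreeGroup (Fin (g + 2))) i)⁻¹ *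
      (![x', y', z'] : Fin 3 → FreeGroup (Fin (g + 2))) i ∈ N) :
    Reach (T R x y z) (T R x' y' z') := by
  subst hN
  refine reach_of_normal (Fin.natAdd h i) ?_ ?_
  · intro k hk
    induction k using Fin.addCases with
    | left k => rw [T_R, T_R]
    | right k =>
      have hki : i ≠ k := fun hh => hk (by rw [hh])
      fin_cases k
      · simpa [T] using h0 hki
      · simpa [T] using h1 hki
      · simpa [T] using h2 hki
  · have e : ∀ a b c : FreeGroup (Fin (g + 2)), T R a b c (Fin.natAdd h i) =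
        (![a, b, c] : Fin 3 → FreeGroup (Fin (g + 2))) i := by
      intro a b c; simp [T]
    rw [e, e]
    exact hw

/-- In the quotient by the normal closure of a set all its members are trivial. -/
lemma mk_eq_one {G : Type*} [Group G] (s : Set G) (x : G) (hx : x ∈ s) :
    (QuotientGroup.mk' (Subgroup.normalClosure s)) x = 1 := by
  rw [QuotientGroup.mk'_apply, QuotientGroup.eq_one_iff]
  exact Subgroup.subset_normalClosure hx

lemma mem_of_mk {G : Type*} [Group G] (s : Set G) (x : G)
    (hx : (QuotientGroup.mk' (Subgroup.normalClosure s)) x = 1) :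
    x ∈ Subgroup.normalClosure s := by
  rwa [QuotientGroup.mk'_apply, QuotientGroup.eq_one_iff] at hx

theorem main (S : FreeGroup (Fin g)) (m : ℕ) (h3 : Nat.Coprime m 3)
    (hS : S ^ m ∈ Subgroup.normalClosure (Set.range R)) :
    QEquiv (presP R S) (presQ R S) := by
  set b₁ : FreeGroup (Fin (g + 2)) := FreeGroup.of (Fin.natAdd g 0) with hb₁
  set b₂ : FreeGroup (Fin (g + 2)) := FreeGroup.of (Fin.natAdd g 1) with hb₂
  set S' : FreeGroup (Fin (g + 2)) := FreeGroup.map (Fin.castAdd 2) S with hS'
  set u : FreeGroup (Fin (g + 2)) := b₁ ^ 3 * b₂ ^ (-5 : ℤ) with hu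
  set v : FreeGroup (Fin (g + 2)) := b₁ ^ 3 * (b₁ * b₂) ^ (-2 : ℤ) with hv
  -- replace `u` by `b₂`
  have s1 : Reach (T R (S' * b₁⁻¹) u v) (T R (S' * b₁⁻¹) b₂ v) := by
    refine reach_T R 1 (fun _ => rfl) (fun hh => absurd rfl hh) (fun _ => rfl) _ rfl ?_
    apply mem_of_mk
    set A := T R (S' * b₁⁻¹) u v '' {k | k ≠ Fin.natAdd h 1} with hA
    set q := QuotientGroup.mk' (Subgroup.normalClosure A) with hq
    have e0 : q (S' * b₁⁻¹) = 1 :=
      mk_eq_one A _ ⟨Fin.natAdd h 0, natAdd_ne (by decide), T_0 ..⟩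
    have e2 : q v = 1 :=
      mk_eq_one A _ ⟨Fin.natAdd h 2, natAdd_ne (by decide), T_2 ..⟩
    have eR : ∀ j, q (FreeGroup.map (Fin.castAdd 2) (R j)) = 1 := fun j =>
      mk_eq_one A _ ⟨Fin.castAdd 3 j, castAdd_ne j 1, T_R ..⟩
    have eS : q (FreeGroup.map (Fin.castAdd 2) (S ^ m)) = 1 := by
      have hle : Subgroup.normalClosure (Set.range R) ≤
          (q.comp (FreeGroup.map (Fin.castAdd 2))).ker := by
        apply Subgroup.normalClosure_le_normal
        rintro _ ⟨j, rfl⟩
        exact eR j
      exact hle hS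
    have e3 : q S' = q b₁ := by
      rw [map_mul, map_inv] at e0
      exact mul_inv_eq_one.mp e0
    have e4 : q b₁ ^ m = 1 := by
      rw [map_pow, map_pow] at eS
      rw [← e3]
      exact eS
    have e5 : q b₁ ^ 3 = (q b₁ * q b₂) ^ 2 := by
      rw [hv, map_mul, map_pow, map_zpow, map_mul] at e2
      have e6 : (q b₁ * q b₂) ^ (-2 : ℤ) = ((q b₁ * q b₂) ^ 2)⁻¹ := by
        rw [zpow_neg]; norm_cast
      rw [e6] at e2
      exact mul_inv_eq_one.mp e2
    have e7 := key (q b₁) (q b₂) m e4 h3 e5
    show q (u⁻¹ * b₂) = 1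
    rw [map_mul, map_inv, hu, map_mul, map_pow, map_zpow, e7]
    rw [← zpow_natCast, ← zpow_add, ← zpow_neg]
    rw [← zpow_add_one]
    norm_num
  -- replace `v` by `b₁`
  have s2 : Reach (T R (S' * b₁⁻¹) b₂ v) (T R (S' * b₁⁻¹) b₂ b₁) := by
    refine reach_T R 2 (fun _ => rfl) (fun _ => rfl) (fun hh => absurd rfl hh) _ rfl ?_
    apply mem_of_mk
    set A := T R (S' * b₁⁻¹) b₂ v '' {k | k ≠ Fin.natAdd h 2} with hA
    set q := QuotientGroup.mk' (Subgroup.normalClosure A) with hq
    have e1 : q b₂ = 1 :=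
      mk_eq_one A _ ⟨Fin.natAdd h 1, natAdd_ne (by decide), T_1 ..⟩
    show q (v⁻¹ * b₁) = 1
    rw [map_mul, map_inv, hv, map_mul, map_pow, map_zpow, map_mul, e1, mul_one]
    rw [← zpow_natCast, ← zpow_add, ← zpow_neg, ← zpow_add_one]
    norm_num
  -- replace `S b₁⁻¹` by `S`
  have s3 : Reach (T R (S' * b₁⁻¹) b₂ b₁) (T R S' b₂ b₁) := by
    refine reach_T R 0 (fun hh => absurd rfl hh) (fun _ => rfl) (fun _ => rfl) _ rfl ?_
    apply mem_of_mk
    set A := T R (S' * b₁⁻¹) b₂ b₁ '' {k | k ≠ Fin.natAdd h 0} with hA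
    set q := QuotientGroup.mk' (Subgroup.normalClosure A) with hq
    have e1 : q b₁ = 1 :=
      mk_eq_one A _ ⟨Fin.natAdd h 2, natAdd_ne (by decide), T_2 ..⟩
    show q ((S' * b₁⁻¹)⁻¹ * S') = 1
    rw [map_mul, map_inv, map_mul, map_inv, e1]
    simp
  -- swap the last two relators
  have s4 : Reach (T R S' b₂ b₁) (T R S' (b₂ * b₁) b₁) := by
    refine reach_T R 1 (fun _ => rfl) (fun hh => absurd rfl hh) (fun _ => rfl) _ rfl ?_
    apply mem_of_mk
    set A := T R S' b₂ b₁ '' {k | k ≠ Fin.natAdd h 1} with hA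
    set q := QuotientGroup.mk' (Subgroup.normalClosure A) with hq
    have e1 : q b₁ = 1 :=
      mk_eq_one A _ ⟨Fin.natAdd h 2, natAdd_ne (by decide), T_2 ..⟩
    show q (b₂⁻¹ * (b₂ * b₁)) = 1
    rw [inv_mul_cancel_left, e1]
  have s5 : Reach (T R S' (b₂ * b₁) b₁) (T R S' (b₂ * b₁) b₂⁻¹) := by
    refine reach_T R 2 (fun _ => rfl) (fun _ => rfl) (fun hh => absurd rfl hh) _ rfl ?_
    apply mem_of_mk
    set A := T R S' (b₂ * b₁) b₁ '' {k | k ≠ Fin.natAdd h 2} with hA
    set q := QuotientGroup.mk' (Subgroup.normalClosure A) with hq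
    have e1 : q (b₂ * b₁) = 1 :=
      mk_eq_one A _ ⟨Fin.natAdd h 1, natAdd_ne (by decide), T_1 ..⟩
    show q (b₁⁻¹ * b₂⁻¹) = 1
    rw [← mul_inv_rev, map_inv, e1, inv_one]
  have s6 : Reach (T R S' (b₂ * b₁) b₂⁻¹) (T R S' b₁ b₂⁻¹) := by
    refine reach_T R 1 (fun _ => rfl) (fun hh => absurd rfl hh) (fun _ => rfl) _ rfl ?_
    apply mem_of_mk
    set A := T R S' (b₂ * b₁) b₂⁻¹ '' {k | k ≠ Fin.natAdd h 1} with hA
    set q := QuotientGroup.mk' (Subgroup.normalClosure A) with hq
    have e1 : q b₂⁻¹ = 1 :=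
      mk_eq_one A _ ⟨Fin.natAdd h 2, natAdd_ne (by decide), T_2 ..⟩
    show q ((b₂ * b₁)⁻¹ * b₁) = 1
    rw [mul_inv_rev, map_mul, map_mul, e1, mul_one, ← map_mul, inv_mul_cancel, map_one]
  have s7 : Reach (T R S' b₁ b₂⁻¹) (T R S' b₁ b₂) := by
    have := reach_inv (T R S' b₁ b₂⁻¹) (Fin.natAdd h 2)
    convert this using 1
    funext k
    induction k using Fin.addCases with
    | left k => rw [Function.update_of_ne (castAdd_ne k 2), T_R, T_R]
    | right k =>
      fin_cases k
      · rw [Function.update_of_ne (natAdd_ne (by decide))]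
        simp [T]
      · rw [Function.update_of_ne (natAdd_ne (by decide))]
        simp [T]
      · simp [T]
  have s8 := ((((((s1.trans s2).trans s3).trans s4).trans s5).trans s6).trans s7)
  -- delete the two generators
  have s9 : (⟨g + 2, h + 3, T R S' b₁ b₂⟩ : Pres) = (presQ R S).prolong.prolong := by
    have h9 : T R S' b₁ b₂ = (presQ R S).prolong.prolong.rel := by
      funext k
      unfold Pres.prolong presQ
      simp only
      induction k using Fin.lastCases with
      | last =>
        rw [Fin.snoc_last]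
        exact T_2 ..
      | cast k =>
        rw [Fin.snoc_castSucc]
        induction k using Fin.lastCases with
        | last =>
          rw [Fin.snoc_last, FreeGroup.map.of]
          exact T_1 ..
        | cast k =>
          rw [Fin.snoc_castSucc]
          induction k using Fin.lastCases with
          | last =>
            rw [Fin.snoc_last, FreeGroup.map.comp]
            exact T_0 ..
          | cast k =>
            rw [Fin.snoc_castSucc, FreeGroup.map.comp]
            exact T_R ..
    rw [h9]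
    rfl
  have s10 : QEquiv (presQ R S).prolong.prolong (presQ R S) :=
    (Relation.ReflTransGen.single (Move.unprolong (presQ R S).prolong)).trans
      (Relation.ReflTransGen.single (Move.unprolong (presQ R S)))
  have s11 : presP R S = ⟨g + 2, h + 3, T R (S' * b₁⁻¹) u v⟩ := rfl
  rw [s11]
  refine Relation.ReflTransGen.trans s8 ?_
  rw [s9]
  exact s10

end Tail

/-! ### Every Q**-transformation can be reversed -/

section Rev

variable {g h : ℕ}

/-- The substitution `a_i ↦ w`. -/
abbrev sub (i : Fin g) (w : FreeGroup (Fin g)) : FreeGroup (Fin g) →* FreeGroup (Fin g) :=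
  FreeGroup.lift (Function.update FreeGroup.of i w)

lemma reach_subInv (A : Fin h → FreeGroup (Fin g)) (i : Fin g) :
    Reach A (fun j => sub i (FreeGroup.of i)⁻¹ (A j)) :=
  Relation.ReflTransGen.single (Move.nielsenInv ⟨g, h, A⟩ i)

lemma reach_subRight (A : Fin h → FreeGroup (Fin g)) (i k : Fin g) (hik : k ≠ i) :
    Reach A (fun j => sub i (FreeGroup.of i * FreeGroup.of k) (A j)) :=
  Relation.ReflTransGen.single (Move.nielsenRight ⟨g, h, A⟩ i k hik)

lemma reach_subLeft (A : Fin h → FreeGroup (Fin g)) (i k : Fin g) (hik : k ≠ i) :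
    Reach A (fun j => sub i (FreeGroup.of k * FreeGroup.of i) (A j)) :=
  Relation.ReflTransGen.single (Move.nielsenLeft ⟨g, h, A⟩ i k hik)

lemma sub_inv_inv (i : Fin g) :
    (sub i (FreeGroup.of i)⁻¹).comp (sub i (FreeGroup.of i)⁻¹) = MonoidHom.id _ := by
  ext l
  by_cases hl : l = i
  · subst hl; simp
  · simp [Function.update_of_ne hl]

lemma sub_right_rev (i k : Fin g) (hik : k ≠ i) :
    (sub k (FreeGroup.of k)⁻¹).comp ((sub i (FreeGroup.of i * FreeGroup.of k)).comp
      ((sub k (FreeGroup.of k)⁻¹).comp (sub i (FreeGroup.of i * FreeGroup.of k)))) =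
      MonoidHom.id _ := by
  ext l
  by_cases hl : l = i
  · subst hl; simp [Function.update_of_ne hik, Function.update_of_ne hik.symm]
  · by_cases hk : l = k
    · subst hk; simp [Function.update_of_ne hik]
    · simp [Function.update_of_ne hl, Function.update_of_ne hk]

lemma sub_left_rev (i k : Fin g) (hik : k ≠ i) :
    (sub k (FreeGroup.of k)⁻¹).comp ((sub i (FreeGroup.of k * FreeGroup.of i)).comp
      ((sub k (FreeGroup.of k)⁻¹).comp (sub i (FreeGroup.of k * FreeGroup.of i)))) =
      MonoidHom.id _ := by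
  ext l
  by_cases hl : l = i
  · subst hl; simp [Function.update_of_ne hik, Function.update_of_ne hik.symm]
  · by_cases hk : l = k
    · subst hk; simp [Function.update_of_ne hik]
    · simp [Function.update_of_ne hl, Function.update_of_ne hk]

end Rev

lemma Move.symm {P Q : Pres} (hPQ : Move P Q) : QEquiv Q P := by
  induction hPQ with
  | conj P j w =>
    obtain ⟨g, h, A⟩ := P
    have h1 := reach_conj (Function.update A j (w * A j * w⁻¹)) j w⁻¹
    have h2 : Reach (Function.update A j (w * A j * w⁻¹)) A := by simpa [mul_assoc] using h1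
    exact h2
  | inv P j =>
    obtain ⟨g, h, A⟩ := P
    have h1 := reach_inv (Function.update A j (A j)⁻¹) j
    have h2 : Reach (Function.update A j (A j)⁻¹) A := by simpa using h1
    exact h2
  | mulRight P j k hjk =>
    obtain ⟨g, h, A⟩ := P
    have h1 := reach_mul_conj_inv (Function.update A j (A j * A k)) j k hjk 1
    have h2 : Reach (Function.update A j (A j * A k)) A := by
      simpa [Function.update_of_ne hjk] using h1
    exact h2
  | mulLeft P j k hjk =>
    obtain ⟨g, h, A⟩ := P
    have h1 := reach_mul_conj_inv (Function.update A j (A k * A j)) j k hjk (A j)⁻¹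
    have h2 : Reach (Function.update A j (A k * A j)) A := by
      simpa [Function.update_of_ne hjk, mul_assoc] using h1
    exact h2
  | nielsenInv P i =>
    obtain ⟨g, h, A⟩ := P
    have h1 := reach_subInv (fun j => sub i (FreeGroup.of i)⁻¹ (A j)) i
    have h2 : (fun j => sub i (FreeGroup.of i)⁻¹ (sub i (FreeGroup.of i)⁻¹ (A j))) = A := by
      funext j
      exact DFunLike.congr_fun (sub_inv_inv i) (A j)
    rw [h2] at h1
    exact h1
  | nielsenRight P i k hik =>
    obtain ⟨g, h, A⟩ := P
    have h1 := ((reach_subInv (fun j => sub i (FreeGroup.of i * FreeGroup.of k) (A j)) k).trans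
      (reach_subRight _ i k hik)).trans (reach_subInv _ k)
    have h2 : (fun j => sub k (FreeGroup.of k)⁻¹ (sub i (FreeGroup.of i * FreeGroup.of k)
        (sub k (FreeGroup.of k)⁻¹ (sub i (FreeGroup.of i * FreeGroup.of k) (A j))))) = A := by
      funext j
      exact DFunLike.congr_fun (sub_right_rev i k hik) (A j)
    rw [h2] at h1
    exact h1
  | nielsenLeft P i k hik =>
    obtain ⟨g, h, A⟩ := P
    have h1 := ((reach_subInv (fun j => sub i (FreeGroup.of k * FreeGroup.of i) (A j)) k).trans
      (reach_subLeft _ i k hik)).trans (reach_subInv _ k)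
    have h2 : (fun j => sub k (FreeGroup.of k)⁻¹ (sub i (FreeGroup.of k * FreeGroup.of i)
        (sub k (FreeGroup.of k)⁻¹ (sub i (FreeGroup.of k * FreeGroup.of i) (A j))))) = A := by
      funext j
      exact DFunLike.congr_fun (sub_left_rev i k hik) (A j)
    rw [h2] at h1
    exact h1
  | prolong P => exact Relation.ReflTransGen.single (Move.unprolong P)
  | unprolong P => exact Relation.ReflTransGen.single (Move.prolong P)

lemma QEquiv.symm {P Q : Pres} (hPQ : QEquiv P Q) : QEquiv Q P := by
  induction hPQ with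
  | refl => exact Relation.ReflTransGen.refl
  | tail _ hm ih => exact Relation.ReflTransGen.trans hm.symm ih

/-- Q1 is true.  Let `R_1, ..., R_h` and `S` be elements of the free group on `a_1, ..., a_g` such
that the image of `S` in `G = ⟨a_1, ..., a_g | R_1, ..., R_h⟩` has finite order not divisible
by `3` (in particular: finite order coprime to `6`).  Then
`⟨a_1, ..., a_g, b_1, b_2 | R_1, ..., R_h, S b_1⁻¹, b_1³ b_2⁻⁵, b_1³ (b_1 b_2)⁻²⟩` and
`⟨a_1, ..., a_g | R_1, ..., R_h, S⟩` are Q**-equivalent. -/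
theorem result (g h : ℕ) (R : Fin h → FreeGroup (Fin g)) (S : FreeGroup (Fin g))
    (_hfin : IsOfFinOrder (PresentedGroup.mk (Set.range R) S))
    (hord : ¬ 3 ∣ orderOf (PresentedGroup.mk (Set.range R) S)) :
    QEquiv (presP R S) (presQ R S) ∧ QEquiv (presQ R S) (presP R S) := by
  have hS : S ^ orderOf (PresentedGroup.mk (Set.range R) S) ∈
      Subgroup.normalClosure (Set.range R) := by
    rw [← QuotientGroup.eq_one_iff]
    exact pow_orderOf_eq_one (PresentedGroup.mk (Set.range R) S)
  have h3 : Nat.Coprime (orderOf (PresentedGroup.mk (Set.range R) S)) 3 :=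
    ((Nat.Prime.coprime_iff_not_dvd Nat.prime_three).mpr hord).symm
  have h1 := main R S _ h3 hS
  exact ⟨h1, h1.symm⟩

end Pool.Agent.Results.MP_7840f5_gt.BinaryIcosahedralTail
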